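import Pool.Agent.Helper3.BR.MinkSub

/-! The convex bodies at the infinite places of a totally complex field. -/

set_option autoImplicit false

namespace Pool.Agent.Helper3.BR

open NumberField Module MeasureTheory NumberField.InfinitePlace

section

variable (L : Type) [Field L] [NumberField L]

/-- exchange of the variables -/
def swapE (ι W : Type) : (ι → W → ℂ) ≃ₗ[ℝ] (W → ι → ℂ) where
  toFun f w i := f i w
  invFun g i w := g w i
  left_inv _ := rfl
  right_inv _ := rfl
  map_add' _ _ := rfl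
  map_smul' _ _ := rfl

/-- the mixed space of a totally complex field -/
def mixE (hL : ∀ w : InfinitePlace L, w.IsComplex) :
    mixedEmbedding.mixedSpace L ≃ₗ[ℝ] (InfinitePlace L → ℂ) where
  toFun x w := x.2 ⟨w, hL w⟩
  invFun y := (fun w => (not_isReal_iff_isComplex.2 (hL w.1) w.2).elim, fun w => y w.1)
  left_inv x := by
    refine Prod.ext ?_ ?_
    · funext w
      exact (not_isReal_iff_isComplex.2 (hL w.1) w.2).elim
    · funext w
      rfl
  right_inv _ := rfl
  map_add' _ _ := rfl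
  map_smul' _ _ := rfl

/-- a real basis given by the integral basis -/
noncomputable def basE (hL : ∀ w : InfinitePlace L, w.IsComplex) (ι : Type) [Fintype ι]
    [DecidableEq ι] :
    Basis (Σ _ : ι, Free.ChooseBasisIndex ℤ (𝓞 L)) ℝ (InfinitePlace L → ι → ℂ) :=
  (Pi.basis fun _ : ι => (mixedEmbedding.latticeBasis L).map (mixE L hL)).map
    (swapE ι (InfinitePlace L))

theorem basE_apply (hL : ∀ w : InfinitePlace L, w.IsComplex) (ι : Type) [Fintype ι]
    [DecidableEq ι] (p : Σ _ : ι, Free.ChooseBasisIndex ℤ (𝓞 L)) (w : InfinitePlace L) (i : ι) :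
    basE L hL ι p w i =
      if i = p.1 then w.embedding ((RingOfIntegers.basis L p.2 : 𝓞 L) : L) else 0 := by
  obtain ⟨i', k⟩ := p
  unfold basE
  rw [Basis.map_apply, Pi.basis_apply]
  show (Pi.single i' (((mixedEmbedding.latticeBasis L).map (mixE L hL)) k) :
    ι → InfinitePlace L → ℂ) i w = _
  by_cases h : i = i'
  · subst h
    rw [Pi.single_eq_same, if_pos rfl, Basis.map_apply, mixedEmbedding.latticeBasis_apply]
    show (mixedEmbedding L (integralBasis L k)).2 ⟨w, hL w⟩ = _
    rw [mixedEmbedding.mixedEmbedding_apply_isComplex, integralBasis_apply]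
  · rw [Pi.single_eq_of_ne h, if_neg h]
    rfl

/-- the elements of the coordinate lattice -/
noncomputable def latEquiv (ι : Type) :
    ((Σ _ : ι, Free.ChooseBasisIndex ℤ (𝓞 L)) → ℤ) ≃+ (ι → 𝓞 L) where
  toFun z i := (RingOfIntegers.basis L).equivFun.symm (fun k => z ⟨i, k⟩)
  invFun y p := (RingOfIntegers.basis L).equivFun (y p.1) p.2
  left_inv z := by
    funext p
    show (RingOfIntegers.basis L).equivFun
      ((RingOfIntegers.basis L).equivFun.symm (fun k => z ⟨p.1, k⟩)) p.2 = z p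
    rw [LinearEquiv.apply_symm_apply]
  right_inv y := by
    funext i
    show (RingOfIntegers.basis L).equivFun.symm
      (fun k => (RingOfIntegers.basis L).equivFun (y i) k) = y i
    exact LinearEquiv.symm_apply_apply _ _
  map_add' z z' := by
    funext i
    rw [Pi.add_apply, ← map_add]
    rfl

theorem sum_basE (hL : ∀ w : InfinitePlace L, w.IsComplex) (ι : Type) [Fintype ι]
    [DecidableEq ι] (z : (Σ _ : ι, Free.ChooseBasisIndex ℤ (𝓞 L)) → ℤ) (w : InfinitePlace L)
    (i : ι) :
    (∑ p, (z p : ℝ) • basE L hL ι p) w i = w.embedding ((latEquiv L ι z i : 𝓞 L) : L) := by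
  rw [Finset.sum_apply, Finset.sum_apply]
  simp only [Pi.smul_apply, basE_apply]
  rw [Fintype.sum_sigma]
  rw [Finset.sum_eq_single i]
  · simp only [if_true]
    have h1 : latEquiv L ι z i = ∑ k, z ⟨i, k⟩ • RingOfIntegers.basis L k := by
      show (RingOfIntegers.basis L).equivFun.symm (fun k => z ⟨i, k⟩) = _
      rw [Basis.equivFun_symm_apply]
    rw [h1]
    simp only [map_sum, zsmul_eq_mul, map_mul, map_intCast]
    refine Finset.sum_congr rfl fun k _ => ?_
    simp
  · intro i' _ hi'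
    refine Finset.sum_eq_zero fun k _ => ?_
    rw [if_neg (Ne.symm hi'), smul_zero]
  · intro h
    exact absurd (Finset.mem_univ _) h

end

/-- the linear map given by matrices -/
noncomputable def matE {W ι : Type} [Fintype ι] [DecidableEq ι] (Ψ : W → Matrix ι ι ℂ) :
    (W → ι → ℂ) →ₗ[ℝ] (W → ι → ℂ) :=
  LinearMap.pi fun w => ((Matrix.toLin' (Ψ w)).restrictScalars ℝ).comp (LinearMap.proj w)

theorem det_matE {W ι : Type} [Fintype W] [Fintype ι] [DecidableEq ι] (Ψ : W → Matrix ι ι ℂ) :
    LinearMap.det (matE Ψ) = ∏ w, ‖(Ψ w).det‖ ^ 2 := by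
  unfold matE
  rw [LinearMap.det_pi]
  refine Finset.prod_congr rfl fun w _ => ?_
  rw [LinearMap.det_restrictScalars, LinearMap.det_toLin', Algebra.norm_complex_apply,
    Complex.normSq_eq_norm_sq]

theorem vol_body {W ι : Type} [Fintype W] [Fintype ι] [DecidableEq ι] (Ψ : W → Matrix ι ι ℂ)
    (hΨ : ∀ w, (Ψ w).det ≠ 0) (r : W → ι → ℝ) :
    volume {X : W → ι → ℂ | ∀ w i, ‖(Ψ w).mulVec (X w) i‖ ≤ r w i} =
      ENNReal.ofReal (∏ w, ‖(Ψ w).det‖ ^ 2)⁻¹ *
        ∏ w, ∏ i, (ENNReal.ofReal (r w i) ^ 2 * NNReal.pi) := by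
  have hpos : 0 < ∏ w, ‖(Ψ w).det‖ ^ 2 :=
    Finset.prod_pos fun w _ => pow_pos (norm_pos_iff.2 (hΨ w)) 2
  have h1 : {X : W → ι → ℂ | ∀ w i, ‖(Ψ w).mulVec (X w) i‖ ≤ r w i} =
      (matE Ψ) ⁻¹' (Set.pi Set.univ fun w => Set.pi Set.univ fun i =>
        Metric.closedBall (0 : ℂ) (r w i)) := by
    ext X
    simp only [Set.mem_ofPred_eq, Set.mem_preimage, Set.mem_pi, Set.mem_univ, forall_true_left,
      mem_closedBall_zero_iff]
    rfl
  have i1 : (volume : Measure (ι → ℂ)).IsAddHaarMeasure := inferInstance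
  have i2 : (volume : Measure (W → ι → ℂ)).IsAddHaarMeasure :=
    Measure.pi.isAddHaarMeasure (fun _ : W => (volume : Measure (ι → ℂ)))
  rw [h1, Measure.addHaar_preimage_linearMap _ (by rw [det_matE]; exact hpos.ne'), det_matE,
    abs_of_pos (inv_pos.2 hpos), volume_pi_pi]
  congr 1
  refine Finset.prod_congr rfl fun w _ => ?_
  rw [volume_pi_pi]
  refine Finset.prod_congr rfl fun i _ => ?_
  rw [Complex.volume_closedBall]

end Pool.Agent.Helper3.BR
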