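import Pool.Agent.Helper3.BR.GlobIdx
import Pool.Agent.Helper3.BR.ArchVol

/-! The adelic form of Minkowski's theorem for lattices given by local matrices over a totally
complex number field. -/

set_option autoImplicit false

namespace Pool.Agent.Helper3.BR

open IsDedekindDomain NumberField WithZero MeasureTheory Module NumberField.InfinitePlace

theorem eq_one_of_sq {a : ℤᵐ⁰} (h : a ^ 2 = 1) : a = 1 := by
  have h0 : a ≠ 0 := by
    rintro rfl
    rw [zero_pow two_ne_zero] at h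
    exact zero_ne_one h
  obtain ⟨k, hk⟩ : ∃ k : ℤ, a = exp k := ⟨log a, (exp_log h0).symm⟩
  rw [hk, ← exp_nsmul, ← exp_zero, exp_inj] at h
  simp only [nsmul_eq_mul, Nat.cast_ofNat] at h
  have : k = 0 := by omega
  rw [hk, this, exp_zero]

theorem exists_bd {F : Type*} [Field F] (w : Valuation F ℤᵐ⁰) {ι : Type*} [Fintype ι]
    (A : Matrix ι ι F) : ∃ n : ℕ, ∀ i j, w (A i j) ≤ exp (n : ℤ) := by
  have h : ∀ i j, ∃ n : ℕ, w (A i j) ≤ exp (n : ℤ) := by
    intro i j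
    by_cases h0 : w (A i j) = 0
    · exact ⟨0, by rw [h0]; exact zero_le⟩
    · obtain ⟨k, hk⟩ : ∃ k : ℤ, w (A i j) = exp k := ⟨log (w (A i j)), (exp_log h0).symm⟩
      refine ⟨k.toNat, ?_⟩
      rw [hk, exp_le_exp]
      omega
  choose n hn using h
  refine ⟨∑ i, ∑ j, n i j, fun i j => (hn i j).trans ?_⟩
  rw [exp_le_exp]
  have h1 : n i j ≤ ∑ j, n i j :=
    Finset.single_le_sum (fun _ _ => Nat.zero_le _) (Finset.mem_univ j)
  have h2 : ∑ j, n i j ≤ ∑ i, ∑ j, n i j :=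
    Finset.single_le_sum (f := fun i => ∑ j, n i j) (fun _ _ => Nat.zero_le _)
      (Finset.mem_univ i)
  exact_mod_cast h1.trans h2

section

variable {L : Type} [Field L] [NumberField L]

theorem exists_scale (S : Set (HeightOneSpectrum (𝓞 L))) (hS : S.Finite)
    (n : HeightOneSpectrum (𝓞 L) → ℕ) :
    ∃ c : 𝓞 L, c ≠ 0 ∧ ∀ v ∈ S, v.valuation L (c : L) ≤ exp (-(n v : ℤ)) := by
  classical
  set J : Ideal (𝓞 L) := ∏ v ∈ hS.toFinset, v.asIdeal ^ n v with hJ
  have hJ0 : J ≠ ⊥ := by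
    rw [hJ, ← Ideal.zero_eq_bot, Finset.prod_ne_zero_iff]
    intro v _
    exact pow_ne_zero _ v.ne_bot
  obtain ⟨c, hc, hc0⟩ := Submodule.exists_mem_ne_zero_of_ne_bot hJ0
  refine ⟨c, hc0, fun v hv => ?_⟩
  rw [HeightOneSpectrum.valuation_of_algebraMap, HeightOneSpectrum.intValuation_le_pow_iff_mem]
  exact Ideal.le_of_dvd (Finset.dvd_prod_of_mem (fun v => v.asIdeal ^ n v)
    (hS.mem_toFinset.2 hv)) hc

theorem prod_sq (hL : ∀ w : InfinitePlace L, w.IsComplex) (x : L) :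
    ∏ w : InfinitePlace L, ‖w.embedding x‖ ^ 2 = |((Algebra.norm ℚ x : ℚ) : ℝ)| := by
  have h := InfinitePlace.prod_eq_abs_norm x
  rw [← Rat.cast_abs, ← h]
  refine Finset.prod_congr rfl fun w _ => ?_
  rw [InfinitePlace.mult, if_neg (not_isReal_iff_isComplex.2 (hL w)),
    InfinitePlace.norm_embedding_eq]

theorem abs_norm_int (Γ : 𝓞 L) :
    ((Ideal.absNorm (Ideal.span {Γ}) : ℕ) : ℝ) = |((Algebra.norm ℚ (Γ : L) : ℚ) : ℝ)| := by
  rw [Ideal.absNorm_span_singleton, ← Algebra.coe_norm_int, Nat.cast_natAbs, Rat.cast_intCast,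
    Int.cast_abs]

theorem exists_gamma (ι : Type) [Fintype ι] [DecidableEq ι] (Δ : L)
    (Φ : ∀ v : HeightOneSpectrum (𝓞 L), Matrix ι ι (v.adicCompletion L)) (hΔ : Δ ≠ 0)
    (hΦdet : ∀ v, Valued.v (Φ v).det ^ 2 = v.valuation L Δ)
    (hfin : {v | ¬ ∀ i j, Φ v i j ∈ v.adicCompletionIntegers L}.Finite) :
    ∃ (c : L) (Γ : 𝓞 L) (G : AddSubgroup (ι → 𝓞 L)), c ≠ 0 ∧
      (Γ : L) = c ^ (2 * Fintype.card ι) / Δ ∧ G.index ≠ 0 ∧
      G.index ^ 2 ≤ Ideal.absNorm (Ideal.span {Γ}) ∧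
      ∀ y ∈ G, ∀ v i, ((Φ v).mulVec (fun j => (((y j : 𝓞 L) : L) / c : L) :
        ι → v.adicCompletion L)) i ∈ v.adicCompletionIntegers L := by
  classical
  have hdet0 : ∀ v, (Φ v).det ≠ 0 := by
    intro v h
    have h1 := hΦdet v
    rw [h, map_zero, zero_pow two_ne_zero] at h1
    exact ((v.valuation L).ne_zero_iff.2 hΔ) h1.symm
  have hS : ({v | ¬ ∀ i j, Φ v i j ∈ v.adicCompletionIntegers L} ∪
      {v : HeightOneSpectrum (𝓞 L) | v.valuation L Δ ≠ 1}).Finite := by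
    refine hfin.union ?_
    refine ((HeightOneSpectrum.Support.finite (𝓞 L) Δ).union
      (HeightOneSpectrum.Support.finite (𝓞 L) Δ⁻¹)).subset ?_
    intro v hv
    rcases lt_or_gt_of_ne (show v.valuation L Δ ≠ 1 from hv) with h | h
    · right
      show 1 < v.valuation L Δ⁻¹
      rw [map_inv₀]
      exact (one_lt_inv₀ (zero_lt_iff.2 ((v.valuation L).ne_zero_iff.2 hΔ))).2 h
    · left
      exact h
  choose n hn using fun v : HeightOneSpectrum (𝓞 L) =>
    exists_bd (Valued.v : Valuation (v.adicCompletion L) ℤᵐ⁰) ((Φ v)⁻¹)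
  obtain ⟨c, hc0, hc⟩ := exists_scale _ hS n
  have hcL : (c : L) ≠ 0 := by
    intro h
    exact hc0 (RingOfIntegers.coe_eq_zero_iff.1 h)
  have hcv : ∀ v : HeightOneSpectrum (𝓞 L), algebraMap L (v.adicCompletion L) (c : L) ≠ 0 :=
    fun v => (map_ne_zero _).2 hcL
  set M : ∀ v : HeightOneSpectrum (𝓞 L), Matrix ι ι (v.adicCompletion L) := fun v =>
    algebraMap L (v.adicCompletion L) (c : L) • (Φ v)⁻¹ with hM
  have hMint : ∀ v i j, Valued.v (M v i j) ≤ 1 := by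
    intro v i j
    rw [hM]
    simp only [Matrix.smul_apply, smul_eq_mul, map_mul, val_coe]
    by_cases hv : v ∈ ({v | ¬ ∀ i j, Φ v i j ∈ v.adicCompletionIntegers L} ∪
      {v : HeightOneSpectrum (𝓞 L) | v.valuation L Δ ≠ 1})
    · calc v.valuation L (c : L) * Valued.v ((Φ v)⁻¹ i j) ≤ exp (-(n v : ℤ)) * exp (n v : ℤ) :=
            mul_le_mul' (hc v hv) (hn v i j)
        _ = 1 := by rw [← exp_add, neg_add_cancel, exp_zero]
    · rw [Set.mem_union, not_or] at hv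
      obtain ⟨h1, h2⟩ := hv
      have h1' : ∀ i j, Valued.v (Φ v i j) ≤ 1 := by
        have := not_not.1 h1
        exact this
      have h2' : v.valuation L Δ = 1 := not_not.1 h2
      have h3 : Valued.v (Φ v).det = 1 := by
        have h4 := hΦdet v
        rw [h2'] at h4
        exact eq_one_of_sq h4
      exact mul_le_one' (v.valuation_le_one c) (val_inv_le _ _ h1' h3 i j)
  have hMdet : ∀ v, (M v).det =
      algebraMap L (v.adicCompletion L) (c : L) ^ Fintype.card ι * ((Φ v).det)⁻¹ := by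
    intro v
    rw [hM]
    simp only
    rw [Matrix.det_smul, Matrix.det_nonsing_inv, Ring.inverse_eq_inv']
  have hMval : ∀ v, Valued.v (M v).det ^ 2 =
      v.valuation L ((c : L) ^ (2 * Fintype.card ι) / Δ) := by
    intro v
    rw [hMdet, map_mul, map_inv₀, map_pow, val_coe, mul_pow, inv_pow, hΦdet, map_div₀, map_pow,
      ← pow_mul, mul_comm (Fintype.card ι) 2, div_eq_mul_inv]
  have hΓint : ∀ v : HeightOneSpectrum (𝓞 L),
      v.valuation L ((c : L) ^ (2 * Fintype.card ι) / Δ) ≤ 1 := by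
    intro v
    rw [← hMval]
    refine pow_le_one' ?_ 2
    rw [Matrix.det_apply]
    refine val_sum_le _ _ _ fun σ _ => ?_
    have h1 : Valued.v (Equiv.Perm.sign σ • ∏ i, M v (σ i) i) = Valued.v (∏ i, M v (σ i) i) := by
      rcases Int.units_eq_one_or (Equiv.Perm.sign σ) with h | h
      · rw [h, one_smul]
      · rw [h, Units.smul_def, Units.val_neg, Units.val_one, neg_smul, one_smul, Valuation.map_neg]
    rw [h1, map_prod]
    exact Finset.prod_le_one' fun i _ => hMint v _ _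
  obtain ⟨Γ, hΓ⟩ := HeightOneSpectrum.mem_integers_of_valuation_le_one L _ hΓint
  have hΓ0 : Γ ≠ 0 := by
    rintro rfl
    rw [map_zero] at hΓ
    exact div_ne_zero (pow_ne_zero _ hcL) hΔ hΓ.symm
  obtain ⟨G, hG1, hG2, hG3⟩ := glob_index Γ hΓ0 M hMint (fun v => by
    rw [hMval v]
    congr 1
    exact hΓ.symm)
  refine ⟨c, Γ, G, hcL, hΓ, hG1, hG2, fun y hy v i => ?_⟩
  have h1 := hG3 y hy v i
  have hinv : (M v)⁻¹ = (algebraMap L (v.adicCompletion L) (c : L))⁻¹ • Φ v := by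
    refine Matrix.inv_eq_left_inv ?_
    rw [hM]
    simp only
    rw [Matrix.smul_mul, Matrix.mul_smul, smul_smul, inv_mul_cancel₀ (hcv v), one_smul]
    exact Matrix.mul_nonsing_inv _ ((hdet0 v).isUnit)
  rw [hinv] at h1
  rw [HeightOneSpectrum.mem_adicCompletionIntegers]
  have h2 : (fun j => ((((y j : 𝓞 L) : L) / c : L) : v.adicCompletion L)) =
      (algebraMap L (v.adicCompletion L) (c : L))⁻¹ •
        (fun j => algebraMap L (v.adicCompletion L) ((y j : 𝓞 L) : L)) := by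
    funext j
    show algebraMap L (v.adicCompletion L) (((y j : 𝓞 L) : L) / c) = _
    rw [map_div₀, Pi.smul_apply, smul_eq_mul, div_eq_inv_mul]
  rw [h2, Matrix.mulVec_smul, ← Matrix.smul_mulVec]
  exact h1

theorem main_ineq {r N : ℕ} (hr : r ≠ 0) (V D P Nc idx : ℝ) (d : ℕ) (hV : 0 ≤ V) (hD : 0 < D)
    (hNc : 0 < Nc) (h1 : (idx * D) ^ 2 ≤ (Nc ^ N) ^ 2)
    (hP : V * 2 ^ d + 1 ≤ P) :
    V * idx * 2 ^ d < D⁻¹ * (P ^ 2) ^ r * Nc ^ N * (Real.pi ^ N) ^ r := by
  have hpow : 0 ≤ V * 2 ^ d := by positivity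
  have hP1 : 1 ≤ P := by linarith
  have h2 : idx * D ≤ Nc ^ N := abs_le_of_sq_le_sq' h1 (by positivity) |>.2
  have h3 : idx ≤ D⁻¹ * Nc ^ N := by
    rw [inv_mul_eq_div, le_div_iff₀ hD]
    exact h2
  have h4 : V * 2 ^ d < (P ^ 2) ^ r := by
    have h5 : P ≤ (P ^ 2) ^ r := by
      calc P ≤ P ^ 2 := by nlinarith
        _ ≤ (P ^ 2) ^ r := le_self_pow₀ (by nlinarith) hr
    linarith
  have h6 : (1 : ℝ) ≤ (Real.pi ^ N) ^ r :=
    one_le_pow₀ (one_le_pow₀ (by linarith [Real.pi_gt_three]))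
  have h7 : 0 < D⁻¹ * Nc ^ N := by positivity
  calc V * idx * 2 ^ d = (V * 2 ^ d) * idx := by ring
    _ ≤ (V * 2 ^ d) * (D⁻¹ * Nc ^ N) := mul_le_mul_of_nonneg_left h3 hpow
    _ < (P ^ 2) ^ r * (D⁻¹ * Nc ^ N) := mul_lt_mul_of_pos_right h4 h7
    _ ≤ (P ^ 2) ^ r * (D⁻¹ * Nc ^ N) * (Real.pi ^ N) ^ r :=
        le_mul_of_one_le_right (by positivity) h6
    _ = _ := by ring

end

/-- **Minkowski's theorem for a lattice given by local matrices.** -/
theorem adelic_mink (L : Type) [Field L] [NumberField L] (hL : ∀ w : InfinitePlace L, w.IsComplex)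
    (ι : Type) [Fintype ι] [DecidableEq ι] [Nonempty ι] :
    ∃ C : ℝ, 0 < C ∧ ∀ (Δ : L) (Φ : ∀ v : HeightOneSpectrum (𝓞 L), Matrix ι ι (v.adicCompletion L))
      (Ψ : InfinitePlace L → Matrix ι ι ℂ) (ρ : ι → ℝ), Δ ≠ 0 →
      (∀ v, Valued.v (Φ v).det ^ 2 = v.valuation L Δ) →
      (∀ w, ‖(Ψ w).det‖ ^ 2 = ‖w.embedding Δ‖) →
      {v | ¬ ∀ i j, Φ v i j ∈ v.adicCompletionIntegers L}.Finite →
      (∀ i, 0 < ρ i) → C ≤ ∏ i, ρ i →
      ∃ x : ι → L, x ≠ 0 ∧
        (∀ v i, ((Φ v).mulVec (fun j => (x j : v.adicCompletion L))) i ∈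
          v.adicCompletionIntegers L) ∧
        (∀ w i, ‖((Ψ w).mulVec (fun j => w.embedding (x j))) i‖ ≤ ρ i) := by
  classical
  set V0 : ENNReal := volume (ZSpan.fundamentalDomain (basE L hL ι)) with hV0
  have hV0fin : V0 < ⊤ := (ZSpan.fundamentalDomain_isBounded _).measure_lt_top
  set d : ℕ := finrank ℝ (InfinitePlace L → ι → ℂ) with hd
  refine ⟨V0.toReal * 2 ^ d + 1, by positivity, ?_⟩
  intro Δ Φ Ψ ρ hΔ hΦdet hΨdet hfin hρ hC
  obtain ⟨c, Γ, G, hc0, hΓ, hG1, hG2, hG3⟩ := exists_gamma ι Δ Φ hΔ hΦdet hfin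
  set K : Set (InfinitePlace L → ι → ℂ) :=
    {X | ∀ w i, ‖(Ψ w).mulVec (X w) i‖ ≤ ρ i * ‖w.embedding c‖} with hK
  have hΨ0 : ∀ w, (Ψ w).det ≠ 0 := by
    intro w h
    have h1 := hΨdet w
    rw [h, norm_zero, zero_pow two_ne_zero] at h1
    exact hΔ ((map_eq_zero w.embedding).1 (norm_eq_zero.1 h1.symm))
  have hsymm : ∀ x ∈ K, -x ∈ K := by
    intro X hX w i
    rw [Pi.neg_apply, Matrix.mulVec_neg, Pi.neg_apply, norm_neg]
    exact hX w i
  have hconv : Convex ℝ K := by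
    intro X hX Y hY a b ha hb hab w i
    have h1 : (Ψ w).mulVec ((a • X + b • Y) w) i =
        a • (Ψ w).mulVec (X w) i + b • (Ψ w).mulVec (Y w) i := by
      rw [Pi.add_apply, Pi.smul_apply, Pi.smul_apply, Matrix.mulVec_add, Matrix.mulVec_smul,
        Matrix.mulVec_smul]
      rfl
    rw [h1]
    calc ‖a • (Ψ w).mulVec (X w) i + b • (Ψ w).mulVec (Y w) i‖
        ≤ ‖a • (Ψ w).mulVec (X w) i‖ + ‖b • (Ψ w).mulVec (Y w) i‖ := norm_add_le _ _
      _ = a * ‖(Ψ w).mulVec (X w) i‖ + b * ‖(Ψ w).mulVec (Y w) i‖ := by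
          rw [norm_smul, norm_smul, Real.norm_of_nonneg ha, Real.norm_of_nonneg hb]
      _ ≤ a * (ρ i * ‖w.embedding c‖) + b * (ρ i * ‖w.embedding c‖) :=
          add_le_add (mul_le_mul_of_nonneg_left (hX w i) ha)
            (mul_le_mul_of_nonneg_left (hY w i) hb)
      _ = ρ i * ‖w.embedding c‖ := by rw [← add_mul, hab, one_mul]
  set G' : AddSubgroup ((Σ _ : ι, Free.ChooseBasisIndex ℤ (𝓞 L)) → ℤ) :=
    G.comap (latEquiv L ι).toAddMonoidHom with hG'
  have hidx : G'.index = G.index :=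
    AddSubgroup.index_comap_of_surjective _ (latEquiv L ι).surjective
  -- the volume
  have hvol : V0 * G'.index * 2 ^ d < volume K := by
    have hD : 0 < ∏ w : InfinitePlace L, ‖(Ψ w).det‖ ^ 2 :=
      Finset.prod_pos fun w _ => pow_pos (norm_pos_iff.2 (hΨ0 w)) 2
    have hNc : 0 < ∏ w : InfinitePlace L, ‖w.embedding c‖ ^ 2 :=
      Finset.prod_pos fun w _ => pow_pos (norm_pos_iff.2 ((map_ne_zero _).2 hc0)) 2
    have hsq : (∏ w : InfinitePlace L, ‖(Ψ w).det‖ ^ 2) ^ 2 =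
        ∏ w : InfinitePlace L, ‖w.embedding Δ‖ ^ 2 := by
      rw [← Finset.prod_pow]
      exact Finset.prod_congr rfl fun w _ => by rw [hΨdet]
    have hN : ((Ideal.absNorm (Ideal.span {Γ}) : ℕ) : ℝ) *
        (∏ w : InfinitePlace L, ‖(Ψ w).det‖ ^ 2) ^ 2 =
        ((∏ w : InfinitePlace L, ‖w.embedding c‖ ^ 2) ^ Fintype.card ι) ^ 2 := by
      rw [abs_norm_int, hsq, prod_sq hL, prod_sq hL, ← abs_mul, ← Rat.cast_mul, ← map_mul, hΓ,
        div_mul_cancel₀ _ hΔ, map_pow, Rat.cast_pow, abs_pow, ← pow_mul, mul_comm 2]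
    have hineq : ((G.index : ℝ) * ∏ w : InfinitePlace L, ‖(Ψ w).det‖ ^ 2) ^ 2 ≤
        ((∏ w : InfinitePlace L, ‖w.embedding c‖ ^ 2) ^ Fintype.card ι) ^ 2 := by
      rw [← hN, mul_pow]
      refine mul_le_mul_of_nonneg_right ?_ (by positivity)
      exact_mod_cast hG2
    have hmain := main_ineq (r := Fintype.card (InfinitePlace L)) (N := Fintype.card ι)
      Fintype.card_ne_zero V0.toReal (∏ w : InfinitePlace L, ‖(Ψ w).det‖ ^ 2) (∏ i, ρ i)
      (∏ w : InfinitePlace L, ‖w.embedding c‖ ^ 2) G.index d ENNReal.toReal_nonneg hD hNc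
      hineq hC
    have hvolK : volume K = ENNReal.ofReal
        ((∏ w : InfinitePlace L, ‖(Ψ w).det‖ ^ 2)⁻¹ *
          ((∏ i, ρ i) ^ 2) ^ Fintype.card (InfinitePlace L) *
          (∏ w : InfinitePlace L, ‖w.embedding c‖ ^ 2) ^ Fintype.card ι *
          (Real.pi ^ Fintype.card ι) ^ Fintype.card (InfinitePlace L)) := by
      rw [hK, vol_body Ψ hΨ0 (fun w i => ρ i * ‖w.embedding c‖)]
      have h1 : ∀ (w : InfinitePlace L) (i : ι),
          ENNReal.ofReal (ρ i * ‖w.embedding c‖) ^ 2 * (NNReal.pi : ENNReal) =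
            ENNReal.ofReal ((ρ i * ‖w.embedding c‖) ^ 2 * Real.pi) := by
        intro w i
        have h0 : 0 ≤ ρ i * ‖w.embedding c‖ := mul_nonneg (hρ i).le (norm_nonneg _)
        rw [ENNReal.ofReal_mul (sq_nonneg (ρ i * ‖w.embedding c‖)), ENNReal.ofReal_pow h0]
        congr 1
        rw [ENNReal.ofReal, ← NNReal.coe_real_pi, Real.toNNReal_coe]
      simp only [h1]
      have h2 : ∀ w : InfinitePlace L,
          ∏ i, ENNReal.ofReal ((ρ i * ‖w.embedding c‖) ^ 2 * Real.pi) =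
            ENNReal.ofReal (∏ i, ((ρ i * ‖w.embedding c‖) ^ 2 * Real.pi)) := by
        intro w
        rw [ENNReal.ofReal_prod_of_nonneg]
        intro i _
        positivity
      simp only [h2]
      rw [← ENNReal.ofReal_prod_of_nonneg (fun w _ => Finset.prod_nonneg fun i _ => by positivity),
        ← ENNReal.ofReal_mul (inv_nonneg.2 hD.le)]
      congr 1
      rw [mul_assoc, mul_assoc]
      congr 1
      simp only [Finset.prod_mul_distrib, mul_pow, Finset.prod_const, Finset.card_univ,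
        Finset.prod_pow]
      ring
    rw [hvolK, hidx]
    have h3 : V0 * G.index * 2 ^ d = ENNReal.ofReal (V0.toReal * G.index * 2 ^ d) := by
      rw [ENNReal.ofReal_mul (by positivity), ENNReal.ofReal_mul ENNReal.toReal_nonneg,
        ENNReal.ofReal_toReal hV0fin.ne, ENNReal.ofReal_natCast, ENNReal.ofReal_pow (by norm_num)]
      congr 2
      simp
    rw [h3]
    exact (ENNReal.ofReal_lt_ofReal_iff_of_nonneg (by positivity)).2 hmain
  have i1 : (volume : Measure (ι → ℂ)).IsAddHaarMeasure := inferInstance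
  have i2 : (volume : Measure (InfinitePlace L → ι → ℂ)).IsAddHaarMeasure :=
    Measure.pi.isAddHaarMeasure (fun _ : InfinitePlace L => (volume : Measure (ι → ℂ)))
  obtain ⟨z, hzG, hz0, hzK⟩ := mink_sub volume (basE L hL ι) G' (by rw [hidx]; exact hG1) K
    hsymm hconv hvol
  set y : ι → 𝓞 L := latEquiv L ι z with hy
  have hyG : y ∈ G := hzG
  have hy0 : y ≠ 0 := by
    intro h
    exact hz0 ((latEquiv L ι).map_eq_zero_iff.1 h)
  refine ⟨fun j => ((y j : 𝓞 L) : L) / c, ?_, ?_, ?_⟩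
  · intro h
    apply hy0
    funext j
    have h1 := congrFun h j
    rw [Pi.zero_apply, div_eq_zero_iff, or_iff_left hc0] at h1
    exact RingOfIntegers.coe_eq_zero_iff.1 h1
  · intro v i
    exact hG3 y hyG v i
  · intro w i
    have h1 := hzK w i
    have h2 : (fun j => w.embedding (((y j : 𝓞 L) : L) / c)) =
        (w.embedding c)⁻¹ • ((∑ p, (z p : ℝ) • basE L hL ι p) w) := by
      funext j
      rw [Pi.smul_apply, sum_basE, map_div₀, smul_eq_mul, div_eq_inv_mul]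
    rw [h2, Matrix.mulVec_smul, Pi.smul_apply, norm_smul, norm_inv, inv_mul_eq_div,
      div_le_iff₀ (norm_pos_iff.2 ((map_ne_zero _).2 hc0))]
    exact h1

end Pool.Agent.Helper3.BR
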