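import Mathlib

/-! Approximation in the completions. -/

set_option autoImplicit false

namespace Pool.Agent.Helper3.BR

open IsDedekindDomain NumberField WithZero

theorem exists_approx {L : Type*} [Field L] [NumberField L] (v : HeightOneSpectrum (𝓞 L))
    (x : v.adicCompletion L) (hx : Valued.v x ≤ 1) :
    ∃ r : 𝓞 L, Valued.v (x - algebraMap L (v.adicCompletion L) (r : L)) < 1 := by
  obtain ⟨k, hk⟩ : ∃ k : L, Valued.v (x - algebraMap L (v.adicCompletion L) k) < 1 := by
    have hd := HeightOneSpectrum.denseRange_algebraMap (K := L) v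
    have hopen : {y : v.adicCompletion L | Valued.v (y - x) < 1} ∈ nhds x := by
      rw [Valued.mem_nhds]
      exact ⟨1, by simp⟩
    obtain ⟨y, hy, k, rfl⟩ := mem_closure_iff_nhds.1 (hd x) _ hopen
    exact ⟨k, by rw [Valuation.map_sub_swap]; exact hy⟩
  have hk1 : v.valuation L k ≤ 1 := by
    have h1 : Valued.v (algebraMap L (v.adicCompletion L) k) ≤ 1 := by
      have h2 : algebraMap L (v.adicCompletion L) k =
          x - (x - algebraMap L (v.adicCompletion L) k) := by ring
      rw [h2]
      exact Valuation.map_sub_le _ hx hk.le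
    have h3 := v.valuedAdicCompletion_eq_valuation' k
    rw [← h3]
    exact h1
  obtain ⟨r, hr⟩ := v.exists_valuation_sub_lt_of_integer hk1 1
  refine ⟨r, ?_⟩
  have h4 : x - algebraMap L (v.adicCompletion L) (r : L) =
      (x - algebraMap L (v.adicCompletion L) k) -
        (algebraMap L (v.adicCompletion L) ((r : L) - k)) := by
    rw [map_sub]
    ring
  rw [h4]
  refine Valuation.map_sub_lt _ hk ?_
  have h5 := v.valuedAdicCompletion_eq_valuation' ((r : L) - k)
  have h6 : Valued.v (algebraMap L (v.adicCompletion L) ((r : L) - k)) =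
      v.valuation L ((r : L) - k) := h5
  rw [h6]
  exact_mod_cast hr

end Pool.Agent.Helper3.BR
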