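import Mathlib

/-! Indices of local lattices by codes. -/

set_option autoImplicit false

namespace Pool.Agent.Helper3.BR

open WithZero

theorem index_le_of_code {M T : Type*} [AddCommGroup M] [Finite T] (G : AddSubgroup M)
    (code : M → T) (h : ∀ x y, code x = code y → x - y ∈ G) :
    G.index ≠ 0 ∧ G.index ≤ Nat.card T := by
  have hinj : Function.Injective (fun q : M ⧸ G => code q.out) := by
    intro q q' hq
    have h1 := h _ _ hq
    have h2 : (QuotientAddGroup.mk q.out : M ⧸ G) = QuotientAddGroup.mk q'.out := by
      rw [eq_comm, QuotientAddGroup.eq]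
      have : -q'.out + q.out = q.out - q'.out := by abel
      rw [this]
      exact h1
    rwa [QuotientAddGroup.out_eq', QuotientAddGroup.out_eq'] at h2
  have hfin : Finite (M ⧸ G) := Finite.of_injective _ hinj
  refine ⟨?_, ?_⟩
  · rw [AddSubgroup.index]
    exact Nat.card_pos.ne'
  · rw [AddSubgroup.index]
    exact Nat.card_le_card_of_injective _ hinj

/-- a singular matrix over the residue field has a primitive row vector in its kernel -/
theorem exists_primitive {F : Type*} [Field F] (w : Valuation F ℤᵐ⁰) {ι : Type*} [Fintype ι]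
    [DecidableEq ι] (M : Matrix ι ι F) (hM : ∀ i j, w (M i j) ≤ 1) (hdet : w M.det < 1) :
    ∃ u : ι → F, (∀ i, w (u i) ≤ 1) ∧ (∃ j, w (u j) = 1) ∧
      ∀ j, w (Matrix.vecMul u M j) < 1 := by
  classical
  let O := w.valuationSubring
  let k := IsLocalRing.ResidueField O
  let M' : Matrix ι ι O := Matrix.of fun i j => ⟨M i j, hM i j⟩
  have hMM' : M'.map O.subtype = M := by
    ext i j
    rfl
  have hdet' : (O.subtype M'.det) = M.det := by
    rw [RingHom.map_det]
    congr 1
  have hlt : ∀ x : O, w (x : F) < 1 ↔ IsLocalRing.residue O x = 0 := by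
    intro x
    rw [IsLocalRing.residue_eq_zero_iff, IsLocalRing.mem_maximalIdeal, mem_nonunits_iff]
    rw [← not_iff_not, not_not, not_lt]
    constructor
    · intro h1
      have h2 : w (x : F) = 1 := le_antisymm x.2 h1
      exact (Valuation.Integers.isUnit_iff_valuation_eq_one
        (Valuation.valuationSubring.integers w)).2 h2
    · intro h1
      have := (Valuation.Integers.isUnit_iff_valuation_eq_one
        (Valuation.valuationSubring.integers w)).1 h1
      exact this.ge
  have h0 : (M'.map (IsLocalRing.residue O)).det = 0 := by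
    have h1 := (RingHom.map_det (IsLocalRing.residue O) M').symm
    have h2 : (IsLocalRing.residue O).mapMatrix M' = M'.map (IsLocalRing.residue O) := rfl
    rw [← h2, h1, ← hlt]
    show w (O.subtype M'.det) < 1
    rw [hdet']
    exact hdet
  obtain ⟨ub, hub0, hub⟩ := Matrix.exists_vecMul_eq_zero_iff.2 h0
  choose u hu using fun i => IsLocalRing.residue_surjective (R := O) (ub i)
  refine ⟨fun i => (u i : F), fun i => (u i).2, ?_, ?_⟩
  · obtain ⟨j, hj⟩ : ∃ j, ub j ≠ 0 := by
      by_contra hcon
      push Not at hcon
      exact hub0 (funext hcon)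
    refine ⟨j, ?_⟩
    refine le_antisymm (u j).2 ?_
    rw [← not_lt, hlt, hu]
    exact hj
  · intro j
    have h1 : Matrix.vecMul (fun i => (u i : F)) M j = (Matrix.vecMul u M' j : O) := by
      simp only [Matrix.vecMul, dotProduct]
      rw [← ValuationSubring.coe_subtype, map_sum]
      rfl
    rw [h1, hlt]
    have h2 := congrFun hub j
    simp only [Matrix.vecMul, dotProduct, map_sum, map_mul, hu, Pi.zero_apply,
      Matrix.map_apply] at h2 ⊢
    exact h2

end Pool.Agent.Helper3.BR
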