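import Pool.Agent.Helper3.BR.LocCode
import Pool.Agent.Helper3.BR.Approx

/-! The index of a global lattice given by local matrices. -/

set_option autoImplicit false

namespace Pool.Agent.Helper3.BR

open IsDedekindDomain NumberField WithZero UniqueFactorizationMonoid

variable {L : Type*} [Field L] [NumberField L] {ι : Type*} [Fintype ι] [DecidableEq ι]

/-- the local subgroup -/
def locG (v : HeightOneSpectrum (𝓞 L)) (M : Matrix ι ι (v.adicCompletion L)) :
    AddSubgroup (ι → 𝓞 L) where
  carrier := {y | ∀ i, Valued.v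
    (M⁻¹.mulVec (fun j => algebraMap L (v.adicCompletion L) (y j : L)) i) ≤ 1}
  zero_mem' := by
    intro i
    have : (fun j => algebraMap L (v.adicCompletion L) (((0 : ι → 𝓞 L) j : 𝓞 L) : L)) = 0 := by
      funext j
      simp
    rw [this, Matrix.mulVec_zero]
    simp
  add_mem' := by
    intro a b ha hb i
    have : (fun j => algebraMap L (v.adicCompletion L) (((a + b) j : 𝓞 L) : L)) =
        (fun j => algebraMap L (v.adicCompletion L) ((a j : 𝓞 L) : L)) +
          (fun j => algebraMap L (v.adicCompletion L) ((b j : 𝓞 L) : L)) := by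
      funext j
      simp
    rw [this, Matrix.mulVec_add]
    exact Valuation.map_add_le _ (ha i) (hb i)
  neg_mem' := by
    intro a ha i
    have : (fun j => algebraMap L (v.adicCompletion L) (((-a) j : 𝓞 L) : L)) =
        -(fun j => algebraMap L (v.adicCompletion L) ((a j : 𝓞 L) : L)) := by
      funext j
      simp
    rw [this, Matrix.mulVec_neg, Pi.neg_apply, Valuation.map_neg]
    exact ha i

theorem val_coe (v : HeightOneSpectrum (𝓞 L)) (k : L) :
    Valued.v (algebraMap L (v.adicCompletion L) k) = v.valuation L k :=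
  v.valuedAdicCompletion_eq_valuation' k

theorem locG_index (v : HeightOneSpectrum (𝓞 L)) (M : Matrix ι ι (v.adicCompletion L))
    (hM : ∀ i j, Valued.v (M i j) ≤ 1) (n : ℕ) (hdet : Valued.v M.det = exp (-(n : ℤ))) :
    (locG v M).index ≠ 0 ∧ (locG v M).index ≤ Ideal.absNorm v.asIdeal ^ n := by
  classical
  obtain ⟨π, hπ⟩ := v.valuation_exists_uniformizer L
  have hint : ∀ r : 𝓞 L, Valued.v (algebraMap L (v.adicCompletion L) (r : L)) ≤ 1 := by
    intro r
    rw [val_coe]
    exact v.valuation_le_one r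
  obtain ⟨code, hcode⟩ := loc_code (Valued.v : Valuation (v.adicCompletion L) ℤᵐ⁰)
    (π := algebraMap L (v.adicCompletion L) π) (by rw [val_coe, hπ])
    ((algebraMap L (v.adicCompletion L)).comp (algebraMap (𝓞 L) L)) hint
    (fun x hx => exists_approx v x hx) v.asIdeal (fun r => by
      show r ∈ v.asIdeal ↔ Valued.v (algebraMap L (v.adicCompletion L) (r : L)) < 1
      rw [val_coe]
      exact (v.valuation_lt_one_iff_mem r).symm) n M hM hdet
  have hfin : Finite (𝓞 L ⧸ v.asIdeal) := Ideal.finiteQuotientOfFreeOfNeBot v.asIdeal v.ne_bot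
  have h := index_le_of_code (locG v M)
    (fun y => code (fun j => algebraMap L (v.adicCompletion L) (y j : L))) (by
      intro x y hxy
      have h1 := hcode _ _ (fun i => hint (x i)) (fun i => hint (y i)) hxy
      intro i
      have h2 : (fun j => algebraMap L (v.adicCompletion L) (((x - y) j : 𝓞 L) : L)) =
          (fun j => algebraMap L (v.adicCompletion L) ((x j : 𝓞 L) : L)) -
            (fun j => algebraMap L (v.adicCompletion L) ((y j : 𝓞 L) : L)) := by
        funext j
        simp
      rw [h2]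
      exact h1 i)
  refine ⟨h.1, h.2.trans_eq ?_⟩
  rw [Nat.card_fun, Nat.card_fin, Ideal.absNorm_apply, Submodule.cardQuot_apply]

/-- **G4.** -/
theorem glob_index (Γ : 𝓞 L) (hΓ : Γ ≠ 0)
    (M : ∀ v : HeightOneSpectrum (𝓞 L), Matrix ι ι (v.adicCompletion L))
    (hM : ∀ v i j, Valued.v (M v i j) ≤ 1)
    (hdet : ∀ v, Valued.v (M v).det ^ 2 = v.valuation L (Γ : L)) :
    ∃ G : AddSubgroup (ι → 𝓞 L), G.index ≠ 0 ∧
      G.index ^ 2 ≤ Ideal.absNorm (Ideal.span {Γ}) ∧
      ∀ y ∈ G, ∀ v i, Valued.v
        ((M v)⁻¹.mulVec (fun j => algebraMap L (v.adicCompletion L) (y j : L)) i) ≤ 1 := by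
  classical
  set I : Ideal (𝓞 L) := Ideal.span {Γ} with hI
  have hI0 : I ≠ 0 := by
    rw [hI, Ne, Ideal.zero_eq_bot, Ideal.span_singleton_eq_bot]
    exact hΓ
  set s : Finset (Ideal (𝓞 L)) := (normalizedFactors I).toFinset with hs
  have hp : ∀ q ∈ s, Prime q := fun q hq =>
    prime_of_normalized_factor q (Multiset.mem_toFinset.1 hq)
  have hprod : ∏ q ∈ s, q ^ (normalizedFactors I).count q = I := by
    rw [hs, ← Finset.prod_multiset_count]
    exact associated_iff_eq.1 (prod_normalizedFactors hI0)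
  -- valuations
  have hval : ∀ v : HeightOneSpectrum (𝓞 L), v.valuation L (Γ : L) =
      exp (-((normalizedFactors I).count v.asIdeal : ℤ)) := by
    intro v
    rw [HeightOneSpectrum.valuation_of_algebraMap, v.intValuation_eq_exp_neg_multiplicity hΓ]
    congr 2
    have hirr : Irreducible v.asIdeal := v.irreducible
    have h8 := emultiplicity_eq_count_normalizedFactors hirr hI0
    rw [normalize_eq] at h8
    rw [multiplicity_eq_of_emultiplicity_eq_some h8]
  have hdetn : ∀ v : HeightOneSpectrum (𝓞 L), ∃ n : ℕ,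
      Valued.v (M v).det = exp (-(n : ℤ)) ∧ (normalizedFactors I).count v.asIdeal = n * 2 := by
    intro v
    have h1 := hdet v
    rw [hval v] at h1
    have h0 : Valued.v (M v).det ≠ 0 := by
      intro h
      rw [h, zero_pow two_ne_zero] at h1
      exact exp_ne_zero h1.symm
    obtain ⟨k, hk⟩ : ∃ k : ℤ, Valued.v (M v).det = exp k := ⟨log _, (exp_log h0).symm⟩
    rw [hk, ← exp_nsmul, exp_inj] at h1
    simp only [smul_eq_mul, nsmul_eq_mul, Nat.cast_ofNat] at h1
    refine ⟨(-k).toNat, ?_, ?_⟩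
    · rw [hk]
      congr 1
      omega
    · omega
  have hex : ∀ q : s, ∃ G : AddSubgroup (ι → 𝓞 L), G.index ≠ 0 ∧
      G.index ^ 2 ≤ Ideal.absNorm (q : Ideal (𝓞 L)) ^ (normalizedFactors I).count (q : Ideal (𝓞 L)) ∧
      ∀ y ∈ G, ∀ v : HeightOneSpectrum (𝓞 L), v.asIdeal = q → ∀ i, Valued.v
        ((M v)⁻¹.mulVec (fun j => algebraMap L (v.adicCompletion L) (y j : L)) i) ≤ 1 := by
    rintro ⟨q, hq⟩
    set v : HeightOneSpectrum (𝓞 L) := ⟨q, Ideal.isPrime_of_prime (hp q hq), (hp q hq).ne_zero⟩
      with hv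
    obtain ⟨n, hn1, hn2⟩ := hdetn v
    obtain ⟨h1, h2⟩ := locG_index v (M v) (hM v) n hn1
    refine ⟨locG v (M v), h1, ?_, ?_⟩
    · have h3 : (normalizedFactors I).count q = n * 2 := hn2
      simp only
      rw [h3, pow_mul]
      exact Nat.pow_le_pow_left h2 2
    · intro y hy v' hv'
      have : v' = v := HeightOneSpectrum.ext hv'
      subst this
      exact hy
  choose G hG1 hG2 hG3 using hex
  refine ⟨⨅ q, G q, ?_, ?_, ?_⟩
  · exact AddSubgroup.index_iInf_ne_zero hG1
  · calc (⨅ q, G q).index ^ 2 ≤ (∏ q : s, (G q).index) ^ 2 :=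
          Nat.pow_le_pow_left (AddSubgroup.index_iInf_le _) 2
      _ = ∏ q : s, (G q).index ^ 2 := (Finset.prod_pow _ _ _).symm
      _ ≤ ∏ q : s, Ideal.absNorm (q : Ideal (𝓞 L)) ^
          (normalizedFactors I).count (q : Ideal (𝓞 L)) := Finset.prod_le_prod' fun q _ => hG2 q
      _ = Ideal.absNorm I := by
          rw [Finset.prod_coe_sort s
            (fun q => Ideal.absNorm q ^ (normalizedFactors I).count q)]
          conv_rhs => rw [← hprod]
          rw [map_prod]
          simp only [map_pow]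
  · intro y hy v i
    by_cases hvs : v.asIdeal ∈ s
    · exact hG3 ⟨v.asIdeal, hvs⟩ y ((AddSubgroup.mem_iInf.1 hy) ⟨v.asIdeal, hvs⟩) v rfl i
    · obtain ⟨n, hn1, hn2⟩ := hdetn v
      have hc : (normalizedFactors I).count v.asIdeal = 0 := by
        rw [Multiset.count_eq_zero]
        intro h
        exact hvs (Multiset.mem_toFinset.2 h)
      have hn0 : n = 0 := by omega
      subst hn0
      have hdet1 : Valued.v (M v).det = 1 := by
        rw [hn1]
        rfl
      refine val_mulVec_le _ _ (val_inv_le _ (M v) (hM v) hdet1) _ (fun j => ?_) i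
      rw [val_coe]
      exact v.valuation_le_one (y j)

end Pool.Agent.Helper3.BR
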