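import Pool.Agent.Helper3.BR.Code

/-! Local lattices: codes for the cosets of `M O ^ ι` in `O ^ ι`. -/

set_option autoImplicit false

namespace Pool.Agent.Helper3.BR

open WithZero

section

variable {F : Type*} [Field F] (w : Valuation F ℤᵐ⁰) {ι : Type*} [Fintype ι] [DecidableEq ι]

theorem val_sum_le {κ : Type*} (s : Finset κ) (f : κ → F) (hf : ∀ i ∈ s, w (f i) ≤ 1) :
    w (∑ i ∈ s, f i) ≤ 1 := w.map_sum_le hf

omit [DecidableEq ι] in
theorem val_mulVec_le (M : Matrix ι ι F) (hM : ∀ i j, w (M i j) ≤ 1) (y : ι → F)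
    (hy : ∀ i, w (y i) ≤ 1) (i : ι) : w (M.mulVec y i) ≤ 1 := by
  refine val_sum_le w _ _ fun j _ => ?_
  rw [map_mul]
  exact mul_le_one' (hM i j) (hy j)

/-- the inverse of an integral matrix with unit determinant is integral -/
theorem val_inv_le (M : Matrix ι ι F) (hM : ∀ i j, w (M i j) ≤ 1) (hdet : w M.det = 1) (i j : ι) :
    w (M⁻¹ i j) ≤ 1 := by
  let O := w.valuationSubring
  let M' : Matrix ι ι O := Matrix.of fun i j => ⟨M i j, hM i j⟩
  have h1 : M.adjugate = (M'.adjugate).map O.subtype := by
    have := RingHom.map_adjugate O.subtype M'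
    rw [RingHom.mapMatrix_apply, RingHom.mapMatrix_apply] at this
    rw [this]
    congr 1
  rw [Matrix.inv_def, Matrix.smul_apply, h1, smul_eq_mul, map_mul, Ring.inverse_eq_inv', map_inv₀,
    hdet, inv_one, one_mul]
  exact (M'.adjugate i j).2

theorem lt_one_iff_le_exp {x : F} : w x < 1 ↔ w x ≤ exp (-1 : ℤ) := by
  by_cases h0 : w x = 0
  · rw [h0]
    simp
  · obtain ⟨n, hn⟩ : ∃ n : ℤ, w x = exp n := ⟨log (w x), (exp_log h0).symm⟩
    rw [hn, ← exp_zero, exp_lt_exp, exp_le_exp]
    omega

/-- codes for the cosets of the lattice `M O ^ ι` -/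
theorem loc_code {R : Type*} [CommRing R] {π : F} (hπ : w π = exp (-1 : ℤ)) (i : R →+* F)
    (hi : ∀ r, w (i r) ≤ 1) (happ : ∀ x, w x ≤ 1 → ∃ r, w (x - i r) < 1) (P : Ideal R)
    (hP : ∀ r, r ∈ P ↔ w (i r) < 1) (n : ℕ) : ∀ M : Matrix ι ι F, (∀ i j, w (M i j) ≤ 1) →
    w M.det = exp (-(n : ℤ)) → ∃ code : (ι → F) → (Fin n → R ⧸ P), ∀ y y' : ι → F,
      (∀ i, w (y i) ≤ 1) → (∀ i, w (y' i) ≤ 1) → code y = code y' →
        ∀ i, w (M⁻¹.mulVec (y - y') i) ≤ 1 := by
  classical
  induction n with
  | zero =>
    intro M hM hdet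
    refine ⟨fun _ => Fin.elim0, fun y y' hy hy' _ i => ?_⟩
    refine val_mulVec_le w _ (val_inv_le w M hM (by simpa using hdet)) _ (fun i => ?_) i
    rw [Pi.sub_apply]
    exact w.map_sub_le (hy i) (hy' i)
  | succ n ih =>
    intro M hM hdet
    have hπ0 : π ≠ 0 := by
      rintro rfl
      rw [map_zero] at hπ
      exact exp_ne_zero hπ.symm
    have hlt : w M.det < 1 := by
      rw [hdet, ← exp_zero, exp_lt_exp]
      push_cast
      omega
    obtain ⟨u, hu1, ⟨j, hj⟩, hu2⟩ := exists_primitive w M hM hlt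
    have huj : u j ≠ 0 := by
      intro h
      rw [h, map_zero] at hj
      exact zero_ne_one hj
    set T : Matrix ι ι F := (1 : Matrix ι ι F).updateRow j (π⁻¹ • u) with hT
    have hTdet : T.det = π⁻¹ * u j := by
      rw [hT, ← Matrix.cramer_transpose_apply, Matrix.transpose_one, Matrix.cramer_one]
      rfl
    have hTM : T * M = M.updateRow j (π⁻¹ • Matrix.vecMul u M) := by
      rw [hT, Matrix.updateRow_mul, Matrix.one_mul, Matrix.smul_vecMul]
    have hπi : w π⁻¹ = exp (1 : ℤ) := by
      rw [map_inv₀, hπ, ← exp_neg, neg_neg]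
    have hM1 : ∀ i j', w ((T * M) i j') ≤ 1 := by
      intro i j'
      rw [hTM]
      by_cases hij : i = j
      · subst hij
        rw [Matrix.updateRow_self, Pi.smul_apply, smul_eq_mul, map_mul, hπi]
        have h1 := (lt_one_iff_le_exp w).1 (hu2 j')
        calc exp (1 : ℤ) * w (Matrix.vecMul u M j') ≤ exp (1 : ℤ) * exp (-1 : ℤ) := by gcongr
          _ = 1 := by rw [← exp_add]; rfl
      · rw [Matrix.updateRow_ne hij]
        exact hM i j'
    have hdet1 : w (T * M).det = exp (-(n : ℤ)) := by
      rw [Matrix.det_mul, hTdet, map_mul, map_mul, hπi, hj, hdet, mul_one, ← exp_add]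
      congr 1
      push_cast
      ring
    obtain ⟨code1, hcode1⟩ := ih (T * M) hM1 hdet1
    -- residues
    have hres : ∃ res : F → R ⧸ P, ∀ x, w x ≤ 1 → w (x - i (Quotient.out (res x))) < 1 := by
      refine ⟨fun x => if h : w x ≤ 1 then Ideal.Quotient.mk P (happ x h).choose else 0, ?_⟩
      intro x hx
      simp only [dif_pos hx]
      have h1 := (happ x hx).choose_spec
      set r := (happ x hx).choose
      have h2 : Ideal.Quotient.mk P (Quotient.out (Ideal.Quotient.mk P r)) =
          Ideal.Quotient.mk P r := Quotient.out_eq' _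
      rw [Ideal.Quotient.eq, hP, map_sub] at h2
      have h3 : x - i (Quotient.out (Ideal.Quotient.mk P r)) =
          (x - i r) - (i (Quotient.out (Ideal.Quotient.mk P r)) - i r) := by ring
      rw [h3]
      exact w.map_sub_lt h1 h2
    obtain ⟨res, hres⟩ := hres
    set s : R ⧸ P → (ι → F) := fun a => Pi.single j (i (Quotient.out a) / u j) with hs
    have hus : ∀ a, dotProduct u (s a) = i (Quotient.out a) := by
      intro a
      rw [hs]
      simp only [dotProduct_single]
      field_simp
    have hsint : ∀ a i', w (s a i') ≤ 1 := by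
      intro a i'
      rw [hs]
      by_cases h : i' = j
      · subst h
        simp only [Pi.single_eq_same, map_div₀, hj, div_one]
        exact hi _
      · simp only [Pi.single_eq_of_ne h, map_zero, zero_le]
    have hTint : ∀ y : ι → F, (∀ i, w (y i) ≤ 1) → ∀ i', w (T.mulVec (y - s (res (dotProduct u y))) i')
        ≤ 1 := by
      intro y hy i'
      have hdot : w (dotProduct u y) ≤ 1 := by
        refine val_sum_le w _ _ fun i _ => ?_
        rw [map_mul]
        exact mul_le_one' (hu1 i) (hy i)
      by_cases h : i' = j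
      · subst h
        have h1 : T.mulVec (y - s (res (dotProduct u y))) i' =
            π⁻¹ * (dotProduct u y - i (Quotient.out (res (dotProduct u y)))) := by
          rw [← hus, ← dotProduct_sub]
          show dotProduct (T i') _ = _
          rw [hT, Matrix.updateRow_self, smul_dotProduct, smul_eq_mul]
        rw [h1, map_mul, hπi]
        have h2 := (lt_one_iff_le_exp w).1 (hres _ hdot)
        calc exp (1 : ℤ) * w (dotProduct u y - i (Quotient.out (res (dotProduct u y))))
            ≤ exp (1 : ℤ) * exp (-1 : ℤ) := by gcongr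
          _ = 1 := by rw [← exp_add]; rfl
      · have h1 : T.mulVec (y - s (res (dotProduct u y))) i' =
            (y - s (res (dotProduct u y))) i' := by
          show dotProduct (T i') _ = _
          rw [hT, Matrix.updateRow_ne h]
          show (1 : Matrix ι ι F).mulVec _ i' = _
          rw [Matrix.one_mulVec]
        rw [h1, Pi.sub_apply]
        exact w.map_sub_le (hy i') (hsint _ i')
    refine ⟨fun y => Fin.cons (res (dotProduct u y))
      (code1 (T.mulVec (y - s (res (dotProduct u y))))), ?_⟩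
    intro y y' hy hy' hcode i'
    simp only at hcode
    rw [Fin.cons_inj] at hcode
    obtain ⟨h1, h2⟩ := hcode
    have h3 := hcode1 _ _ (hTint y hy) (hTint y' hy') h2 i'
    have hTunit : IsUnit T.det := by
      rw [hTdet]
      exact (mul_ne_zero (inv_ne_zero hπ0) huj).isUnit
    have h4 : (T * M)⁻¹.mulVec (T.mulVec (y - s (res (dotProduct u y))) -
        T.mulVec (y' - s (res (dotProduct u y')))) = M⁻¹.mulVec (y - y') := by
      rw [← Matrix.mulVec_sub, Matrix.mul_inv_rev, ← Matrix.mulVec_mulVec, Matrix.mulVec_mulVec _ T⁻¹,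
        Matrix.nonsing_inv_mul _ hTunit, Matrix.one_mulVec, h1]
      congr 1
      abel
    rw [h4] at h3
    exact h3

end

end Pool.Agent.Helper3.BR
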