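import Mathlib

/-! Minkowski's theorem for subgroups of finite index of a lattice with a given basis. -/

set_option autoImplicit false

namespace Pool.Agent.Helper3.BR

open MeasureTheory Module

/-- Minkowski's theorem for a subgroup `G` of finite index of the coordinate lattice of a basis `b`
of a real vector space. -/
theorem mink_sub {E : Type*} [NormedAddCommGroup E] [NormedSpace ℝ E] [FiniteDimensional ℝ E]
    [MeasurableSpace E] [BorelSpace E] (μ : Measure E) [μ.IsAddHaarMeasure] {ι : Type*} [Fintype ι]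
    (b : Basis ι ℝ E) (G : AddSubgroup (ι → ℤ)) (hG : G.index ≠ 0) (K : Set E)
    (hs : ∀ x ∈ K, -x ∈ K) (hc : Convex ℝ K)
    (h : μ (ZSpan.fundamentalDomain b) * G.index * 2 ^ (finrank ℝ E) < μ K) :
    ∃ z ∈ G, z ≠ 0 ∧ (∑ i, (z i : ℝ) • b i) ∈ K := by
  classical
  have hfi : G.FiniteIndex := ⟨hG⟩
  have hrank : finrank ℤ G = Fintype.card ι := by
    rw [AddSubgroup.finrank_eq_of_finiteIndex G, finrank_fintype_fun_eq_card]
  have hfree : Module.Free ℤ G := inferInstance
  have hfin : Module.Finite ℤ G := inferInstance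
  obtain ⟨bG⟩ : Nonempty (Basis ι ℤ G) := by
    refine ⟨(Module.finBasisOfFinrankEq ℤ G hrank).reindex (Fintype.equivFin ι).symm⟩
  -- the linear map with the matrix of `bG`
  set f : E →ₗ[ℝ] E := b.constr ℝ (fun j => ∑ i, ((bG j : ι → ℤ) i : ℝ) • b i) with hf
  set B : Matrix ι ι ℤ := Matrix.of fun i j => (bG j : ι → ℤ) i with hB
  have hidx : G.index = B.det.natAbs := by
    rw [AddSubgroup.index_eq_natAbs_det (Pi.basisFun ℤ ι) G bG]
    congr 1
  have hfb : ∀ j, f (b j) = ∑ i, ((bG j : ι → ℤ) i : ℝ) • b i := by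
    intro j
    rw [hf, Basis.constr_basis]
  have hmat : LinearMap.toMatrix b b f = B.map (fun x : ℤ => (x : ℝ)) := by
    ext i j
    rw [LinearMap.toMatrix_apply, hfb, map_sum, Finsupp.finsetSum_apply]
    simp only [map_smul, Basis.repr_self, Finsupp.smul_single, smul_eq_mul, mul_one,
      Finsupp.single_apply]
    simp [hB]
  have hdet : LinearMap.det f = (B.det : ℝ) := by
    rw [← LinearMap.det_toMatrix b, hmat]
    exact (RingHom.map_det (Int.castRingHom ℝ) B).symm
  have hB0 : B.det ≠ 0 := by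
    intro h0
    apply hG
    rw [hidx, h0]
    rfl
  have hdet0 : LinearMap.det f ≠ 0 := by
    rw [hdet]
    exact_mod_cast hB0
  -- the new basis
  set b' : Basis ι ℝ E := b.map (LinearEquiv.ofIsUnitDet (v := b) (v' := b) (f := f) (by
    rw [LinearMap.det_toMatrix]
    exact hdet0.isUnit)) with hb'
  have hb'j : ∀ j, b' j = ∑ i, ((bG j : ι → ℤ) i : ℝ) • b i := by
    intro j
    rw [hb', Basis.map_apply, LinearEquiv.ofIsUnitDet_apply, hfb]
  have hbdet : b.det b' = (B.det : ℝ) := by
    rw [Basis.det_apply]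
    have : b.toMatrix b' = B.map (fun x : ℤ => (x : ℝ)) := by
      ext i j
      rw [Basis.toMatrix_apply, hb'j, map_sum, Finsupp.finsetSum_apply]
      simp only [map_smul, Basis.repr_self, Finsupp.smul_single, smul_eq_mul, mul_one,
        Finsupp.single_apply]
      simp [hB]
    rw [this]
    exact (RingHom.map_det (Int.castRingHom ℝ) B).symm
  have hμ : μ (ZSpan.fundamentalDomain b') = μ (ZSpan.fundamentalDomain b) * G.index := by
    rw [ZSpan.measure_fundamentalDomain b' μ b, hbdet, mul_comm, hidx]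
    congr 1
    have h1 : |(B.det : ℝ)| = (B.det.natAbs : ℝ) := by
      rw [← Int.cast_abs, Int.abs_eq_natAbs]
      rfl
    rw [h1, ENNReal.ofReal_natCast]
  have hcount : Countable (Submodule.span ℤ (Set.range b')).toAddSubgroup := by
    change Countable (Submodule.span ℤ (Set.range b'))
    infer_instance
  obtain ⟨x, hx0, hxK⟩ := exists_ne_zero_mem_lattice_of_measure_mul_two_pow_lt_measure
    (ZSpan.isAddFundamentalDomain' b' μ) hs hc (by rw [hμ]; exact h)
  obtain ⟨c, hc'⟩ := (Submodule.mem_span_range_iff_exists_fun ℤ).1 x.2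
  set z : G := ∑ j, c j • bG j with hz
  have hzi : ∀ i, ((z : ι → ℤ) i) = ∑ j, c j * (bG j : ι → ℤ) i := by
    intro i
    rw [hz, AddSubgroup.val_finsetSum, Finset.sum_apply]
    simp
  have hxz : (x : E) = ∑ i, ((z : ι → ℤ) i : ℝ) • b i := by
    rw [← hc']
    simp only [hb'j, hzi, Int.cast_sum, Int.cast_mul, Finset.smul_sum, Finset.sum_smul]
    rw [Finset.sum_comm]
    refine Finset.sum_congr rfl fun i _ => Finset.sum_congr rfl fun j _ => ?_
    rw [← Int.cast_smul_eq_zsmul ℝ, smul_smul]
  refine ⟨z, z.2, ?_, ?_⟩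
  · intro h0
    apply hx0
    apply Subtype.ext
    rw [hxz]
    simp [h0]
  · rw [← hxz]
    exact hxK

end Pool.Agent.Helper3.BR
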